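import Pool.Agent.G9.Stmts

/-!
# Row ALM of squad GNI: from special numbers of edges to all numbers of edges
-/

set_option autoImplicit false

namespace Pool.Agent.G9.H60

theorem short_sum {r : ℕ} {V W : Type} {G : SimpleGraph V} {H : SimpleGraph W} (hG : Short r G)
    (hH : Short r H) : Short r (G ⊕g H) := by
  intro l hl hlr
  have : NeZero l := ⟨by omega⟩
  rw [Set.eq_empty_iff_forall_notMem]
  rintro v ⟨hinj, hadj⟩
  rcases h0 : v 0 with a0 | b0
  · have hn : ∀ n : ℕ, ∃ a, v (n : ZMod l) = Sum.inl a := by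
      intro n
      induction n with
      | zero => exact ⟨a0, by rw [Nat.cast_zero, h0]⟩
      | succ n ih =>
        obtain ⟨a, ha⟩ := ih
        have h1 := hadj (n : ZMod l)
        rw [ha] at h1
        rcases h2 : v ((n : ZMod l) + 1) with b | b
        · exact ⟨b, by rw [Nat.cast_succ, h2]⟩
        · rw [h2] at h1
          simp [SimpleGraph.sum_adj] at h1
    have hall : ∀ i : ZMod l, ∃ a, v i = Sum.inl a := by
      intro i
      obtain ⟨a, ha⟩ := hn i.val
      rw [ZMod.natCast_zmod_val] at ha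
      exact ⟨a, ha⟩
    choose u hu using hall
    have hmem : u ∈ CycT l G := by
      refine ⟨?_, ?_⟩
      · intro i j hij
        apply hinj
        rw [hu i, hu j, hij]
      · intro i
        have h1 := hadj i
        rw [hu i, hu (i + 1)] at h1
        simpa [SimpleGraph.sum_adj] using h1
    rw [hG l hl hlr] at hmem
    exact hmem
  · have hn : ∀ n : ℕ, ∃ a, v (n : ZMod l) = Sum.inr a := by
      intro n
      induction n with
      | zero => exact ⟨b0, by rw [Nat.cast_zero, h0]⟩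
      | succ n ih =>
        obtain ⟨a, ha⟩ := ih
        have h1 := hadj (n : ZMod l)
        rw [ha] at h1
        rcases h2 : v ((n : ZMod l) + 1) with b | b
        · rw [h2] at h1
          simp [SimpleGraph.sum_adj] at h1
        · exact ⟨b, by rw [Nat.cast_succ, h2]⟩
    have hall : ∀ i : ZMod l, ∃ a, v i = Sum.inr a := by
      intro i
      obtain ⟨a, ha⟩ := hn i.val
      rw [ZMod.natCast_zmod_val] at ha
      exact ⟨a, ha⟩
    choose u hu using hall
    have hmem : u ∈ CycT l H := by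
      refine ⟨?_, ?_⟩
      · intro i j hij
        apply hinj
        rw [hu i, hu j, hij]
      · intro i
        have h1 := hadj i
        rw [hu i, hu (i + 1)] at h1
        simpa [SimpleGraph.sum_adj] using h1
    rw [hH l hl hlr] at hmem
    exact hmem

theorem good_add {r m m' : ℕ} {K K' : ℝ} (h : GoodG r m K) (h' : GoodG r m' K') :
    GoodG r (m + m') (K + K') := by
  classical
  obtain ⟨V, fV, G, hG, nG, cG⟩ := h
  obtain ⟨W, fW, H, hH, nH, cH⟩ := h'
  have inl2 : Function.Injective (fun q : V × V => ((Sum.inl q.1 : V ⊕ W), (Sum.inl q.2 : V ⊕ W))) := by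
    rintro ⟨a, b⟩ ⟨c, d⟩ hh
    simp only [Prod.mk.injEq, Sum.inl.injEq] at hh
    exact Prod.ext hh.1 hh.2
  have inr2 : Function.Injective (fun q : W × W => ((Sum.inr q.1 : V ⊕ W), (Sum.inr q.2 : V ⊕ W))) := by
    rintro ⟨a, b⟩ ⟨c, d⟩ hh
    simp only [Prod.mk.injEq, Sum.inr.injEq] at hh
    exact Prod.ext hh.1 hh.2
  refine ⟨V ⊕ W, inferInstance, G ⊕g H, ?_, short_sum nG nH, ?_⟩
  · have e : {q : (V ⊕ W) × (V ⊕ W) | (G ⊕g H).Adj q.1 q.2} =
        (fun q : V × V => ((Sum.inl q.1 : V ⊕ W), (Sum.inl q.2 : V ⊕ W))) ''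
          {q : V × V | G.Adj q.1 q.2} ∪
        (fun q : W × W => ((Sum.inr q.1 : V ⊕ W), (Sum.inr q.2 : V ⊕ W))) ''
          {q : W × W | H.Adj q.1 q.2} := by
      ext ⟨a, b⟩
      rcases a with a | a <;> rcases b with b | b <;>
        simp [SimpleGraph.sum_adj]
    rw [e, Set.ncard_union_eq, Set.ncard_image_of_injective _ inl2,
      Set.ncard_image_of_injective _ inr2, hG, hH, mul_add]
    · rw [Set.disjoint_left]
      rintro q ⟨x, _, rfl⟩ ⟨y, _, hy⟩
      simp only [Prod.mk.injEq] at hy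
      exact absurd hy.1 (by simp)
  · intro S
    have e : {q : (V ⊕ W) × (V ⊕ W) | q.1 ∈ S ∧ q.2 ∉ S ∧ (G ⊕g H).Adj q.1 q.2} ⊆
        (fun q : V × V => ((Sum.inl q.1 : V ⊕ W), (Sum.inl q.2 : V ⊕ W))) ''
          {q : V × V | q.1 ∈ Sum.inl ⁻¹' S ∧ q.2 ∉ Sum.inl ⁻¹' S ∧ G.Adj q.1 q.2} ∪
        (fun q : W × W => ((Sum.inr q.1 : V ⊕ W), (Sum.inr q.2 : V ⊕ W))) ''
          {q : W × W | q.1 ∈ Sum.inr ⁻¹' S ∧ q.2 ∉ Sum.inr ⁻¹' S ∧ H.Adj q.1 q.2} := by
      rintro ⟨a, b⟩ ⟨h1, h2, h3⟩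
      rcases a with a | a <;> rcases b with b | b <;>
        simp only [SimpleGraph.sum_adj] at h3
      · exact Or.inl ⟨(a, b), ⟨h1, h2, h3⟩, rfl⟩
      · exact Or.inr ⟨(a, b), ⟨h1, h2, h3⟩, rfl⟩
    have h1 := Set.ncard_le_ncard e (Set.toFinite _)
    have h2 := h1.trans (Set.ncard_union_le _ _)
    rw [Set.ncard_image_of_injective _ inl2, Set.ncard_image_of_injective _ inr2] at h2
    have h3 := cG (Sum.inl ⁻¹' S)
    have h4 := cH (Sum.inr ⁻¹' S)
    have h5 : (({q : (V ⊕ W) × (V ⊕ W) | q.1 ∈ S ∧ q.2 ∉ S ∧ (G ⊕g H).Adj q.1 q.2}.ncard : ℕ) : ℝ)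
        ≤ (({q : V × V | q.1 ∈ Sum.inl ⁻¹' S ∧ q.2 ∉ Sum.inl ⁻¹' S ∧ G.Adj q.1 q.2}.ncard : ℕ) : ℝ)
        + (({q : W × W | q.1 ∈ Sum.inr ⁻¹' S ∧ q.2 ∉ Sum.inr ⁻¹' S ∧ H.Adj q.1 q.2}.ncard : ℕ) :
          ℝ) := by
      exact_mod_cast h2
    push_cast
    linarith

theorem good_mono {r m : ℕ} {K K' : ℝ} (h : GoodG r m K) (hK : K ≤ K') : GoodG r m K' := by
  obtain ⟨V, fV, G, hG, nG, cG⟩ := h
  exact ⟨V, fV, G, hG, nG, fun S => (cG S).trans (by linarith)⟩

theorem good_zero (r : ℕ) : GoodG r 0 0 := by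
  refine ⟨PEmpty, inferInstance, ⊥, ?_, ?_, ?_⟩
  · simp
  · intro l hl hlr
    rw [Set.eq_empty_iff_forall_notMem]
    intro v _
    exact (v 0).elim
  · intro S
    simp

theorem good_one (r : ℕ) : GoodG r 1 (1 / 2) := by
  refine ⟨Bool, inferInstance, ⊤, ?_, ?_, ?_⟩
  · have : {q : Bool × Bool | (⊤ : SimpleGraph Bool).Adj q.1 q.2} =
        (({(true, false), (false, true)} : Finset (Bool × Bool)) : Set (Bool × Bool)) := by
      ext ⟨a, b⟩
      cases a <;> cases b <;> simp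
    rw [this, Set.ncard_coe_finset]
    rfl
  · intro l hl hlr
    rw [Set.eq_empty_iff_forall_notMem]
    rintro v ⟨hinj, -⟩
    have : NeZero l := ⟨by omega⟩
    have h1 := Fintype.card_le_of_injective v hinj
    rw [ZMod.card, Fintype.card_bool] at h1
    omega
  · intro S
    have h2 : {q : Bool × Bool | q.1 ∈ S ∧ q.2 ∉ S ∧ (⊤ : SimpleGraph Bool).Adj q.1 q.2}.ncard ≤ 1 := by
      rw [Set.ncard_le_one_iff]
      rintro ⟨a, b⟩ ⟨c, d⟩ ⟨h1, h2, h3⟩ ⟨h4, h5, h6⟩
      cases a <;> cases b <;> cases c <;> cases d <;> simp_all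
    calc _ ≤ ((1 : ℕ) : ℝ) := by exact_mod_cast h2
      _ ≤ _ := by norm_num

theorem good_triv (r m : ℕ) : GoodG r m (m / 2) := by
  induction m with
  | zero => simpa using good_zero r
  | succ m ih =>
    have := good_add ih (good_one r)
    refine good_mono this ?_
    push_cast
    linarith

theorem alm : AlmStmt := by
  intro r θ δ C m0 hθ hδ0 hδ1 hC H
  obtain ⟨ρ, hρ⟩ : ∃ ρ : ℝ, ρ = (1 - δ) ^ θ := ⟨_, rfl⟩
  have hρ1 : ρ < 1 := by
    rw [hρ]
    exact Real.rpow_lt_one (by linarith) (by linarith) hθ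
  obtain ⟨c', hc'⟩ : ∃ c' : ℝ, c' = C / (1 - ρ) + (m0 : ℝ) := ⟨_, rfl⟩
  have hCρ : 0 < C / (1 - ρ) := div_pos hC (by linarith)
  have hm00 : (0 : ℝ) ≤ m0 := Nat.cast_nonneg _
  have hc'0 : 0 < c' := by
    rw [hc']
    positivity
  have hc'1 : (m0 : ℝ) ≤ c' := by
    rw [hc']
    linarith
  have hc'2 : C ≤ c' * (1 - ρ) := by
    have : C / (1 - ρ) ≤ c' := by
      rw [hc']
      linarith
    rwa [div_le_iff₀ (by linarith)] at this
  refine ⟨c', hc'0, ?_⟩
  intro m
  induction m using Nat.strong_induction_on with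
  | _ m ih =>
    by_cases hm : m < m0
    · refine good_mono (good_triv r m) ?_
      rcases Nat.eq_zero_or_pos m with h0 | h0
      · subst h0
        simp [Real.zero_rpow hθ.ne']
      · have h1 : (1 : ℝ) ≤ (m : ℝ) ^ θ := Real.one_le_rpow (by exact_mod_cast h0) hθ.le
        have h2 : (m : ℝ) ≤ m0 := by exact_mod_cast hm.le
        have h3 : (m : ℝ) ≤ c' := h2.trans hc'1
        have h4 : c' * 1 ≤ c' * (m : ℝ) ^ θ := mul_le_mul_of_nonneg_left h1 hc'0.le
        have h5 : (0 : ℝ) ≤ m := Nat.cast_nonneg _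
        linarith
    · push Not at hm
      obtain ⟨e, he0, hem', hδe, he⟩ := H m hm
      have hem : (e : ℝ) ≤ m := by exact_mod_cast hem'
      have hm0 : (0 : ℝ) < m := by
        have : 0 < m := by omega
        exact_mod_cast this
      have h1 := good_add he (ih (m - e) (by omega))
      have h2 : e + (m - e) = m := by omega
      rw [h2] at h1
      refine good_mono h1 ?_
      have h3 : ((m - e : ℕ) : ℝ) ≤ (1 - δ) * m := by
        rw [Nat.cast_sub hem']
        linarith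
      have h4 : ((m - e : ℕ) : ℝ) ^ θ ≤ ρ * (m : ℝ) ^ θ := by
        rw [hρ, ← Real.mul_rpow (by linarith) hm0.le]
        exact Real.rpow_le_rpow (Nat.cast_nonneg _) h3 hθ.le
      have h7 : 0 ≤ (m : ℝ) ^ θ := by positivity
      calc C * (m : ℝ) ^ θ + c' * ((m - e : ℕ) : ℝ) ^ θ
          ≤ C * (m : ℝ) ^ θ + c' * (ρ * (m : ℝ) ^ θ) :=
            add_le_add le_rfl (mul_le_mul_of_nonneg_left h4 hc'0.le)
        _ = (C + c' * ρ) * (m : ℝ) ^ θ := by ring
        _ ≤ c' * (m : ℝ) ^ θ := by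
            apply mul_le_mul_of_nonneg_right _ h7
            linarith

end Pool.Agent.G9.H60
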